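import Pool.Agent.Lib_helper60.K4M.Curve

/-!
The pencil of lines through `-2Q` and the `x`-coordinate translated by `Q`.
-/

namespace K4M

open WeierstrassCurve.Affine

section Poly

variable {F : Type*} [Field F]

lemma g1_I {a1 a2 a3 a4 a6 x0 y0 x y l m : F} (hx : x ≠ x0)
    (E0 : y0 ^ 2 + a1 * x0 * y0 + a3 * y0 = x0 ^ 3 + a2 * x0 ^ 2 + a4 * x0 + a6)
    (E : y ^ 2 + a1 * x * y + a3 * y = x ^ 3 + a2 * x ^ 2 + a4 * x + a6)
    (hm : m * (2 * y0 + a1 * x0 + a3) = 3 * x0 ^ 2 + 2 * a2 * x0 + a4 - a1 * y0)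
    (hl : l * (x0 - x) = y0 - y) :
    (x - x0) * ((l ^ 2 + a1 * l - a2 - x0 - x) - x0) = (2 * y0 + a1 * x0 + a3) * (m - l) := by
  have hy : y = y0 - l * (x0 - x) := by linear_combination hl
  subst hy
  refine mul_left_cancel₀ (sub_ne_zero.2 hx) ?_
  linear_combination E - E0 - (x - x0) * hm

lemma g1_II {a1 a2 a3 a4 a6 x0 y0 x y l m : F} (hx : x ≠ x0)
    (E0 : y0 ^ 2 + a1 * x0 * y0 + a3 * y0 = x0 ^ 3 + a2 * x0 ^ 2 + a4 * x0 + a6)
    (E : y ^ 2 + a1 * x * y + a3 * y = x ^ 3 + a2 * x ^ 2 + a4 * x + a6)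
    (hm : m * (2 * y0 + a1 * x0 + a3) = 3 * x0 ^ 2 + 2 * a2 * x0 + a4 - a1 * y0)
    (hl : l * (x0 - x) = y0 - y) :
    ((-(l * ((l ^ 2 + a1 * l - a2 - x0 - x) - x0) + y0)
        - a1 * (l ^ 2 + a1 * l - a2 - x0 - x) - a3) - y0
        - m * ((l ^ 2 + a1 * l - a2 - x0 - x) - x0)) * (x - x0) =
      (2 * y0 + a1 * x0 + a3) *
        ((l ^ 2 + a1 * l - a2 - x0 - x) - (m ^ 2 + a1 * m - a2 - x0 - x0)) := by
  have h := g1_I hx E0 E hm hl
  linear_combination -(l + m + a1) * h

end Poly

variable {F : Type*} [Field F] [DecidableEq F] {W : WeierstrassCurve.Affine F}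

/-- the tangent covector -/
def g1T (x0 y0 m : F) (v : F × F × F) : F := v.2.1 - y0 * v.2.2 - m * (v.1 - x0 * v.2.2)

/-- the vertical covector -/
def g1V (xP : F) (v : F × F × F) : F := v.1 - xP * v.2.2

lemma g1_key {x0 y0 : F} (h0 : W.Nonsingular x0 y0) (hy : y0 ≠ W.negY x0 y0) (R : W.Point) :
    g1T x0 y0 (W.slope x0 x0 y0 y0) (pv (.some x0 y0 h0 + R)) *
        ((xv R).1 - x0 * (xv R).2) =
      (2 * y0 + W.a₁ * x0 + W.a₃) * (xv R).2 *
        g1V (W.addX x0 x0 (W.slope x0 x0 y0 y0)) (pv (.some x0 y0 h0 + R)) := by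
  have hps : 2 * y0 + W.a₁ * x0 + W.a₃ ≠ 0 := by
    intro h
    apply hy
    unfold WeierstrassCurve.Affine.negY
    linear_combination h
  rcases R with _ | ⟨x, y, h⟩
  · rw [← Point.zero_def, add_zero]
    simp [pv, xv, g1T, g1V]
  · by_cases hx : x0 = x
    · subst hx
      by_cases hyy : y0 = W.negY x0 y
      · rw [Point.add_of_Y_eq rfl hyy, Point.zero_def]
        simp [pv, xv, g1T, g1V]
      · have hyy' : y0 = y := Y_eq_of_Y_ne h0.1 h.1 rfl hyy
        subst hyy'
        rw [Point.add_self_of_Y_ne hy]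
        simp [pv, xv, g1T, g1V]
    · rw [Point.add_of_X_ne hx]
      have E0 := (equation_iff x0 y0).1 h0.1
      have E := (equation_iff x y).1 h.1
      have hm : W.slope x0 x0 y0 y0 * (2 * y0 + W.a₁ * x0 + W.a₃) =
          3 * x0 ^ 2 + 2 * W.a₂ * x0 + W.a₄ - W.a₁ * y0 := by
        rw [slope_of_Y_ne rfl hy]
        have : y0 - W.negY x0 y0 = 2 * y0 + W.a₁ * x0 + W.a₃ := by
          unfold WeierstrassCurve.Affine.negY
          ring
        rw [this, div_mul_cancel₀ _ hps]
      have hl : W.slope x0 x y0 y * (x0 - x) = y0 - y := by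
        rw [slope_of_X_ne hx, div_mul_cancel₀ _ (sub_ne_zero.2 hx)]
      have key := g1_II (fun e => hx e.symm) E0 E hm hl
      simp only [pv, xv, g1T, g1V, WeierstrassCurve.Affine.addY, WeierstrassCurve.Affine.negAddY,
        WeierstrassCurve.Affine.negY, WeierstrassCurve.Affine.addX]
      linear_combination key

lemma g1_neg2 {x0 y0 : F} (h0 : W.Nonsingular x0 y0) (hy : y0 ≠ W.negY x0 y0) :
    pv (-(Point.some x0 y0 h0 + Point.some x0 y0 h0)) =
      (W.addX x0 x0 (W.slope x0 x0 y0 y0),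
        W.slope x0 x0 y0 y0 * (W.addX x0 x0 (W.slope x0 x0 y0 y0) - x0) + y0, 1) := by
  rw [Point.add_self_of_Y_ne' hy, neg_neg]
  rfl

theorem pencil (W : WeierstrassCurve.Affine F) : PencilStatement W := by
  intro Q hQ
  rcases Q with _ | ⟨x0, y0, h0⟩
  · refine ⟨-1, neg_ne_zero.2 one_ne_zero, fun _ => 1, fun _ _ => one_ne_zero, ?_⟩
    intro a b ha hb
    rw [← Point.zero_def] at ha hb ⊢
    rw [add_zero, neg_zero] at ha hb ⊢
    rw [sub_zero, sub_zero]
    rcases a with _ | ⟨x, y, h⟩
    · exact absurd rfl ha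
    rcases b with _ | ⟨x', y', h'⟩
    · exact absurd rfl hb
    rw [Point.zero_def]
    simp only [dt, pv, dx, xv]
    ring
  · have hQ' : Point.some x0 y0 h0 + Point.some x0 y0 h0 ≠ 0 :=
      hQ.resolve_left (Point.some_ne_zero h0)
    have hy : y0 ≠ W.negY x0 y0 := fun h => hQ' (Point.add_self_of_Y_eq h)
    have hps : 2 * y0 + W.a₁ * x0 + W.a₃ ≠ 0 := by
      intro h
      apply hy
      unfold WeierstrassCurve.Affine.negY
      linear_combination h
    set m := W.slope x0 x0 y0 y0 with hm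
    set xP := W.addX x0 x0 m with hxP
    set ψ := 2 * y0 + W.a₁ * x0 + W.a₃ with hψ
    set Q : W.Point := Point.some x0 y0 h0 with hQd
    have hP : pv (-(Q + Q)) = (xP, m * (xP - x0) + y0, 1) := g1_neg2 h0 hy
    have hkey : ∀ a : W.Point, g1T x0 y0 m (pv a) * ((xv (a - Q)).1 - x0 * (xv (a - Q)).2) =
        ψ * (xv (a - Q)).2 * g1V xP (pv a) := by
      intro a
      have h := g1_key h0 hy (a - Q)
      have e : Q + (a - Q) = a := add_sub_cancel Q a
      rw [← hQd, e] at h
      exact h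
    refine ⟨ψ, hps, fun a => if (xv (a - Q)).2 = 0 then g1V xP (pv a) else
      g1T x0 y0 m (pv a) / ψ, ?_, ?_⟩
    · intro a ha hz
      simp only [] at hz
      have hz' : g1T x0 y0 m (pv a) = 0 ∧ g1V xP (pv a) = 0 := by
        have hk := hkey a
        rcases hR : a - Q with _ | ⟨x, y, h⟩
        · rw [hR] at hz hk
          simp only [xv, if_true] at hz hk
          refine ⟨?_, hz⟩
          simpa using hk
        · rw [hR] at hz hk
          simp only [xv, one_ne_zero, if_false, div_eq_zero_iff, hps, or_false] at hz hk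
          refine ⟨hz, ?_⟩
          rw [hz, zero_mul, mul_one] at hk
          exact (mul_eq_zero.1 hk.symm).resolve_left hps
      obtain ⟨h1, h2⟩ := hz'
      apply ha
      have hPP : -(Q + Q) = Point.some _ _ (nonsingular_negAdd h0 h0 fun hxy => hy hxy.right) := by
        rw [hQd, Point.add_self_of_Y_ne' hy, neg_neg]
      rcases a with _ | ⟨x, y, h⟩
      · simp [g1T, pv] at h1
      · rw [hPP]
        have e1 : x = xP := by
          simp only [g1V, pv, mul_one] at h2
          linear_combination h2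
        have e2 : y = m * (xP - x0) + y0 := by
          simp only [g1T, pv, mul_one] at h1
          rw [e1] at h1
          linear_combination h1
        subst e1 e2
        rfl
    · intro a b ha hb
      have hdt : dt (-(Q + Q)) a b =
          -(g1T x0 y0 m (pv a) * g1V xP (pv b) - g1T x0 y0 m (pv b) * g1V xP (pv a)) := by
        unfold dt
        rw [hP]
        simp only [g1T, g1V]
        ring
      have hrep : ∀ a : W.Point, g1T x0 y0 m (pv a) = (if (xv (a - Q)).2 = 0 then g1V xP (pv a) else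
          g1T x0 y0 m (pv a) / ψ) * (ψ * (xv (a - Q)).2) ∧
          g1V xP (pv a) = (if (xv (a - Q)).2 = 0 then g1V xP (pv a) else
          g1T x0 y0 m (pv a) / ψ) * ((xv (a - Q)).1 - x0 * (xv (a - Q)).2) := by
        intro a
        have hk := hkey a
        rcases hR : a - Q with _ | ⟨x, y, h⟩
        · rw [hR] at hk
          simp only [xv, if_true] at hk ⊢
          constructor
          · linear_combination hk
          · ring
        · rw [hR] at hk
          simp only [xv, one_ne_zero, if_false] at hk ⊢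
          constructor
          · field_simp
          · field_simp
            linear_combination -hk
      rw [hdt]
      obtain ⟨a1, a2⟩ := hrep a
      obtain ⟨b1, b2⟩ := hrep b
      simp only []
      generalize (if (xv (a - Q)).2 = 0 then g1V xP (pv a) else
          g1T x0 y0 m (pv a) / ψ) = ha' at a1 a2 ⊢
      generalize (if (xv (b - Q)).2 = 0 then g1V xP (pv b) else
          g1T x0 y0 m (pv b) / ψ) = hb' at b1 b2 ⊢
      rw [a1, a2, b1, b2]
      unfold dx
      ring

end K4M
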